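import Pool.Agent.Helper23.MV.StH

set_option autoImplicit false

namespace Pool.Agent.Helper47.MV

open Finset ArithmeticFunction
open Pool.Agent.Helper23.MV

private theorem conv_M_DHR (a h f F : ℕ → ℂ) (N : ℕ)
    (hF : ∀ m n : ℕ, F (m * n) = F m * F n)
    (ha : ∀ n : ℕ, 1 ≤ n → a n = ∑ m ∈ n.divisors, h m * f (n / m)) :
    ∑ n ∈ Ioc 0 N, a n * F n = ∑ m ∈ Ioc 0 N, h m * F m * ∑ k ∈ Ioc 0 (N / m), f k * F k := by
  let f1 : ArithmeticFunction ℂ := ⟨fun n => if n = 0 then 0 else h n * F n, by simp⟩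
  let g1 : ArithmeticFunction ℂ := ⟨fun n => if n = 0 then 0 else f n * F n, by simp⟩
  have e1 : ∀ n : ℕ, n ≠ 0 → f1 n = h n * F n := fun n hn => if_neg hn
  have e2 : ∀ n : ℕ, n ≠ 0 → g1 n = f n * F n := fun n hn => if_neg hn
  have h1 := sum_Ioc_mul_eq_sum_sum f1 g1 N
  have h2 : ∑ n ∈ Ioc 0 N, a n * F n = ∑ n ∈ Ioc 0 N, (f1 * g1) n := by
    refine sum_congr rfl fun n hn => ?_
    rw [mem_Ioc] at hn
    rw [ha n hn.1, mul_apply, Nat.sum_divisorsAntidiagonal (f := fun i j => f1 i * g1 j), sum_mul]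
    refine sum_congr rfl fun m hm => ?_
    rw [Nat.mem_divisors] at hm
    have hm0 : m ≠ 0 := by rintro rfl; exact hm.2 (Nat.eq_zero_of_zero_dvd hm.1)
    have hnm : n / m ≠ 0 := (Nat.div_pos (Nat.le_of_dvd (by omega) hm.1) (by omega)).ne'
    rw [e1 m hm0, e2 _ hnm]
    have : F n = F m * F (n / m) := by
      rw [← hF, Nat.mul_div_cancel' hm.1]
    rw [this]
    ring
  rw [h2, h1]
  refine sum_congr rfl fun n hn => ?_
  rw [mem_Ioc] at hn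
  rw [e1 n (by omega)]
  congr 1
  refine sum_congr rfl fun k hk => ?_
  rw [mem_Ioc] at hk
  rw [e2 k (by omega)]

private theorem sdsq_M_DHR (θ : ℕ → ℝ) (z : ℝ) (h1 : ∀ d : ℕ, z < d → θ d = 0)
    (h2 : ∀ d, ¬ Squarefree d → θ d = 0) (n : ℕ) (hn : 1 ≤ n) :
    sd θ n ^ 2 = ∑ d₁ ∈ (Icc 1 ⌊z⌋₊).filter Squarefree, ∑ d₂ ∈ (Icc 1 ⌊z⌋₊).filter Squarefree,
      if Nat.lcm d₁ d₂ ∣ n then θ d₁ * θ d₂ else 0 := by
  have h3 : sd θ n = ∑ d ∈ (Icc 1 ⌊z⌋₊).filter Squarefree, if d ∣ n then θ d else 0 := by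
    rw [← sum_filter, sd]
    symm
    apply sum_subset
    · intro d hd
      simp only [mem_filter, mem_Icc] at hd
      exact Nat.mem_divisors.2 ⟨hd.2, by omega⟩
    · intro d hd hd'
      simp only [mem_filter, mem_Icc, not_and] at hd'
      rw [Nat.mem_divisors] at hd
      by_cases hs : Squarefree d
      · by_cases hdz : (d : ℝ) ≤ z
        · exfalso
          exact hd' ⟨⟨Nat.pos_of_dvd_of_pos hd.1 (by omega), Nat.le_floor hdz⟩, hs⟩ hd.1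
        · exact h1 d (not_le.1 hdz)
      · exact h2 d hs
  rw [h3, sq, sum_mul_sum]
  refine sum_congr rfl fun d₁ _ => sum_congr rfl fun d₂ _ => ?_
  by_cases h4 : d₁ ∣ n <;> by_cases h5 : d₂ ∣ n <;> simp [h4, h5, Nat.lcm_dvd_iff]

private theorem sqf_lcm_M_DHR {a b : ℕ} (ha : Squarefree a) (hb : Squarefree b) :
    Squarefree (Nat.lcm a b) := by
  rw [Nat.squarefree_iff_factorization_le_one (Nat.lcm_ne_zero ha.ne_zero hb.ne_zero)]
  intro p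
  rw [Nat.factorization_lcm ha.ne_zero hb.ne_zero, Finsupp.sup_apply]
  exact sup_le ((Nat.squarefree_iff_factorization_le_one ha.ne_zero).1 ha p)
    ((Nat.squarefree_iff_factorization_le_one hb.ne_zero).1 hb p)

private theorem expand_M_DHR {e : PCh} {δ : ℝ} (hδ : 0 ≤ δ) (he : e.χ ^ 2 = 1) (hdi : StHdi)
    (c : PCh) (ρ : ℂ) (θ : ℕ → ℝ) (z x : ℝ) (h1 : ∀ d : ℕ, z < d → θ d = 0)
    (h2 : ∀ d, ¬ Squarefree d → θ d = 0) (hz : 0 ≤ z) (hx : z ^ 4 ≤ x) :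
    ∑ n ∈ Ioc 0 ⌊x⌋₊, ((ff e δ n * sd θ n ^ 2 : ℝ) : ℂ) * (c.ev n * (n : ℂ) ^ (-ρ)) =
      ∑ d₁ ∈ (Icc 1 ⌊z⌋₊).filter Squarefree, ∑ d₂ ∈ (Icc 1 ⌊z⌋₊).filter Squarefree,
        ((θ d₁ * θ d₂ : ℝ) : ℂ) *
        ∑ m ∈ Icc 1 ((Nat.lcm d₁ d₂) ^ 2), (hd e δ (Nat.lcm d₁ d₂) m : ℂ) *
          (c.ev m * (m : ℂ) ^ (-ρ)) * TF e δ c (x / m) ρ := by
  obtain ⟨F, hFd⟩ : ∃ F : ℕ → ℂ, ∀ n, F n = c.ev n * (n : ℂ) ^ (-ρ) := ⟨_, fun _ => rfl⟩
  have hF : ∀ m n : ℕ, F (m * n) = F m * F n := by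
    intro m n
    simp only [hFd, PCh.ev]
    push_cast
    rw [map_mul, Complex.natCast_mul_natCast_cpow]
    ring
  have hTF : ∀ m : ℕ, TF e δ c (x / m) ρ
      = ∑ k ∈ Ioc 0 (⌊x⌋₊ / m), ((ff e δ k : ℝ) : ℂ) * F k := by
    intro m
    rw [TF, Nat.floor_div_natCast]
    refine sum_congr rfl fun k _ => ?_
    rw [hFd]
    ring
  simp_rw [← hFd, hTF]
  have e1 : ∀ n ∈ Ioc 0 ⌊x⌋₊, ((ff e δ n * sd θ n ^ 2 : ℝ) : ℂ) * F n
      = ∑ d₁ ∈ (Icc 1 ⌊z⌋₊).filter Squarefree, ∑ d₂ ∈ (Icc 1 ⌊z⌋₊).filter Squarefree,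
        ((θ d₁ * θ d₂ : ℝ) : ℂ) *
          (((if Nat.lcm d₁ d₂ ∣ n then ff e δ n else 0 : ℝ) : ℂ) * F n) := by
    intro n hn
    rw [mem_Ioc] at hn
    rw [sdsq_M_DHR θ z h1 h2 n hn.1, mul_sum, Complex.ofReal_sum, sum_mul]
    refine sum_congr rfl fun d₁ _ => ?_
    rw [mul_sum, Complex.ofReal_sum, sum_mul]
    refine sum_congr rfl fun d₂ _ => ?_
    split_ifs <;> push_cast <;> ring
  rw [sum_congr rfl e1, sum_comm]
  refine sum_congr rfl fun d₁ hd₁ => ?_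
  rw [sum_comm]
  refine sum_congr rfl fun d₂ hd₂ => ?_
  rw [← mul_sum]
  congr 1
  simp only [mem_filter, mem_Icc] at hd₁ hd₂
  have hsq : Squarefree (Nat.lcm d₁ d₂) := sqf_lcm_M_DHR hd₁.2 hd₂.2
  have h3 := (hdi e δ he hδ _ hsq).1
  rw [conv_M_DHR (fun n => ((if Nat.lcm d₁ d₂ ∣ n then ff e δ n else 0 : ℝ) : ℂ))
    (fun m => (hd e δ (Nat.lcm d₁ d₂) m : ℂ)) (fun k => ((ff e δ k : ℝ) : ℂ)) F _ hF (by
      intro n hn
      rw [h3 n hn]
      push_cast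
      rfl)]
  symm
  apply sum_subset
  · intro m hm
    rw [mem_Icc] at hm
    rw [mem_Ioc]
    refine ⟨hm.1, hm.2.trans (Nat.le_floor ?_)⟩
    have hd1 : (d₁ : ℝ) ≤ z := (Nat.le_floor_iff hz).1 hd₁.1.2
    have hd2 : (d₂ : ℝ) ≤ z := (Nat.le_floor_iff hz).1 hd₂.1.2
    have h4 : ((Nat.lcm d₁ d₂ : ℕ) : ℝ) ≤ z * z := by
      have h5 : Nat.lcm d₁ d₂ ≤ d₁ * d₂ := Nat.le_of_dvd (Nat.mul_pos (by omega) (by omega))
        (Nat.lcm_dvd_mul _ _)
      calc ((Nat.lcm d₁ d₂ : ℕ) : ℝ) ≤ ((d₁ * d₂ : ℕ) : ℝ) := by exact_mod_cast h5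
        _ = d₁ * d₂ := by push_cast; ring
        _ ≤ z * z := mul_le_mul hd1 hd2 (Nat.cast_nonneg _) hz
    calc (((Nat.lcm d₁ d₂) ^ 2 : ℕ) : ℝ) = ((Nat.lcm d₁ d₂ : ℕ) : ℝ) ^ 2 := by push_cast; ring
      _ ≤ (z * z) ^ 2 := pow_le_pow_left₀ (Nat.cast_nonneg _) h4 2
      _ = z ^ 4 := by ring
      _ ≤ x := hx
  · intro m hm hm'
    rw [mem_Ioc] at hm
    rw [mem_Icc] at hm'
    have h5 : hd e δ (Nat.lcm d₁ d₂) m = 0 := by
      unfold hd
      rw [if_neg]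
      rintro ⟨_, h6⟩
      have := Nat.le_of_dvd (pow_pos (Nat.pos_of_ne_zero hsq.ne_zero) 2) h6
      omega
    rw [h5]
    simp

private theorem triv_aux_M_DHR (r : ℕ) [NeZero r] (χ : DirichletCharacter ℂ r) (hχ : χ = 1)
    (hr : r = 1) : (∀ m : ℕ, χ (m : ZMod r) = 1) ∧
    ∀ s, DirichletCharacter.LFunction χ s = riemannZeta s := by
  subst hr
  subst hχ
  constructor
  · intro m
    rw [Subsingleton.elim ((m : ℕ) : ZMod 1) 1]
    exact map_one _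
  · intro s
    rw [DirichletCharacter.LFunction_modOne_eq]

private theorem triv_M_DHR (c : PCh) (hc : c.χ = 1) :
    (∀ m : ℕ, c.ev m = 1) ∧ ∀ s, c.L s = riemannZeta s := by
  have h1 : c.χ.conductor = c.r := c.prim
  rw [hc, DirichletCharacter.conductor_one] at h1
  exact triv_aux_M_DHR c.r c.χ hc h1.symm

private theorem real_M_DHR (e : PCh) (he : ∀ n, (e.ev n).im = 0) (δ : ℝ) (hδ : 0 < δ) :
    ‖e.L (1 + δ)‖ = |(e.L (1 + δ)).re| := by
  have him : (e.L (1 + δ)).im = 0 := by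
    have h1 : (1 : ℝ) < ((1 : ℂ) + δ).re := by simp [hδ]
    rw [PCh.L, DirichletCharacter.LFunction_eq_LSeries _ h1, LSeries]
    have h2 : ∀ n : ℕ, LSeries.term (fun n => e.χ (n : ZMod e.r)) (1 + δ) n
        = (((if n = 0 then 0 else (e.ev n).re / (n : ℝ) ^ (1 + δ)) : ℝ) : ℂ) := by
      intro n
      rcases eq_or_ne n 0 with rfl | hn
      · simp
      · rw [LSeries.term_of_ne_zero hn, if_neg hn]
        have h3 : e.χ (n : ZMod e.r) = ((e.ev n).re : ℂ) := by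
          have h4 : e.ev n = e.χ (n : ZMod e.r) := rfl
          rw [← h4]
          exact Complex.ext (by simp) (by simp [he n])
        rw [h3]
        push_cast
        rw [Complex.ofReal_cpow (Nat.cast_nonneg n)]
        push_cast
        rfl
    rw [tsum_congr h2, ← Complex.ofReal_tsum, Complex.ofReal_im]
  have h5 : e.L (1 + δ) = (((e.L (1 + δ)).re : ℝ) : ℂ) := Complex.ext (by simp) (by simp [him])
  rw [h5, Complex.norm_real, Complex.ofReal_re, Real.norm_eq_abs]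

theorem hDhr : StFfb → StHdi → StTf1 → StTf2 → StLct → StZlw → StDh0 → StDhr := by
  intro hffb hhdi htf1 htf2 hlct hzlw hdh0 κ hκ hκ1
  obtain ⟨c₁, X₁, hc₁, hc₁κ, hX₁, H1⟩ := htf1 κ hκ (by linarith)
  obtain ⟨c₂, X₂, hc₂, hc₂κ, hX₂, H2⟩ := htf2 κ hκ (by linarith)
  obtain ⟨K, H3⟩ := hlct
  obtain ⟨c₃, hc₃, hc₃8, H4⟩ := hzlw
  obtain ⟨c₄, C₄, X₄, hc₄, hc₄κ, hC₄, hX₄, H5⟩ := hdh0 κ hκ hκ1
  obtain ⟨a, ha0, haκ, ha1, ha2⟩ : ∃ a : ℝ, 0 < a ∧ a ≤ κ / 4 ∧ a ≤ c₁ ∧ a ≤ c₂ :=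
    ⟨min c₁ c₂, lt_min hc₁ hc₂, (min_le_left _ _).trans hc₁κ, min_le_left _ _, min_le_right _ _⟩
  obtain ⟨c₀, hc₀, h0a, h03, h04⟩ : ∃ c₀ : ℝ, 0 < c₀ ∧ c₀ ≤ a ∧ c₀ ≤ c₃ ∧ c₀ ≤ c₄ :=
    ⟨min a (min c₃ c₄), lt_min ha0 (lt_min hc₃ hc₄), min_le_left _ _,
      (min_le_right _ _).trans (min_le_left _ _), (min_le_right _ _).trans (min_le_right _ _)⟩
  -- the largeness condition
  have hlim : ∃ L₀ : ℝ, ∀ L : ℝ, L₀ ≤ L → (3 * L) ^ K * Real.exp (-(a / 2 * L)) ≤ 1 / 4 := by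
    have h1 := Real.tendsto_pow_mul_exp_neg_atTop_nhds_zero K
    have h2 : Filter.Tendsto (fun L : ℝ => a / 2 * L) Filter.atTop Filter.atTop :=
      Filter.Tendsto.const_mul_atTop (by positivity) Filter.tendsto_id
    have h3 := h1.comp h2
    have hpos : 0 < (a / 2) ^ K / (4 * 3 ^ K) := by positivity
    have h4 := h3.eventually (gt_mem_nhds hpos)
    obtain ⟨L₀, hL₀⟩ := Filter.eventually_atTop.1 h4
    refine ⟨L₀, fun L hL => ?_⟩
    have h5 := hL₀ L hL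
    simp only [Function.comp] at h5
    rw [lt_div_iff₀ (by positivity), mul_pow] at h5
    have h6 : 0 < (a / 2) ^ K := by positivity
    rw [mul_pow]
    have h7 : (a / 2) ^ K * (3 ^ K * L ^ K * Real.exp (-(a / 2 * L)) * 4) ≤ (a / 2) ^ K * 1 := by
      rw [mul_one]
      calc (a / 2) ^ K * (3 ^ K * L ^ K * Real.exp (-(a / 2 * L)) * 4)
          = (a / 2) ^ K * L ^ K * Real.exp (-(a / 2 * L)) * (4 * 3 ^ K) := by ring
        _ ≤ _ := h5.le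
    have h8 := le_of_mul_le_mul_left h7 h6
    linarith
  obtain ⟨L₀, hL₀⟩ := hlim
  refine ⟨c₀, 4 * C₄, max (max (max X₁ X₂) X₄) (Real.exp (max L₀ (max 1 (1 / a)))), hc₀,
    h0a.trans haκ, by linarith, le_max_of_le_left (le_max_of_le_right hX₄), ?_⟩
  intro X e c δ ρ hX her hcr heRe hδ1 hδ2 heL hcL hρ1 hρ2 hce
  have hXX₁ : X₁ ≤ X := ((le_max_left _ _).trans ((le_max_left _ _).trans (le_max_left _ _))).trans hX
  have hXX₂ : X₂ ≤ X := ((le_max_right _ _).trans ((le_max_left _ _).trans (le_max_left _ _))).trans hX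
  have hXX₄ : X₄ ≤ X := ((le_max_right _ _).trans (le_max_left _ _)).trans hX
  have hX2 : 2 ≤ X := hX₁.trans hXX₁
  have hX0 : 0 < X := by linarith
  have hX1 : 1 ≤ X := by linarith
  have hLX : max L₀ (max 1 (1 / a)) ≤ Real.log X := by
    rw [Real.le_log_iff_exp_le hX0]
    exact (le_max_right _ _).trans hX
  have hL0 : L₀ ≤ Real.log X := (le_max_left _ _).trans hLX
  have hL1 : 1 ≤ Real.log X := ((le_max_left _ _).trans (le_max_right _ _)).trans hLX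
  have hLa : 1 / a ≤ Real.log X := ((le_max_right _ _).trans (le_max_right _ _)).trans hLX
  have hδ0 : 0 < δ := (Real.rpow_pos_of_pos hX0 _).trans_le hδ1
  have hδa : δ ≤ a := by
    have h1 : δ * (1 / a) ≤ 1 := (mul_le_mul_of_nonneg_left hLa hδ0.le).trans hδ2
    rwa [mul_one_div, div_le_one ha0] at h1
  have mono : ∀ u v : ℝ, u ≤ v → X ^ (-v) ≤ X ^ (-u) := fun u v huv =>
    Real.rpow_le_rpow_of_exponent_le hX1 (by linarith)
  have mono' : ∀ u v : ℝ, u ≤ v → X ^ u ≤ X ^ v := fun u v huv =>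
    Real.rpow_le_rpow_of_exponent_le hX1 huv
  obtain ⟨hev, hff1, _, hff0, _, _⟩ := hffb e δ heRe.1 hδ0.le
  obtain ⟨θ, hθ1, hθ2, hθ3, hθ4, hθ5, hθ6, hθ7⟩ := H5 X e δ hXX₄ (her.trans (mono' _ _ h04)) heRe
    ((mono _ _ h04).trans hδ1) hδ2 heL
  -- the zero is to the left of one
  have hρne : c.χ = 1 → ρ ≠ 1 := by
    rintro h1 rfl
    rw [(triv_M_DHR c h1).2] at hcL
    exact riemannZeta_one_ne_zero hcL
  have hσ : ρ.re ≤ 1 := by
    by_contra hcon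
    have h2 : c.χ ≠ 1 ∨ ρ ≠ 1 := by
      by_cases h3 : c.χ = 1
      · exact Or.inr (hρne h3)
      · exact Or.inl h3
    exact DirichletCharacter.LFunction_ne_zero_of_one_le_re c.χ h2 (not_le.1 hcon).le hcL
  -- the approximation
  obtain ⟨A, hA⟩ : ∃ A : ℝ → ℂ, ∀ y, A y = if c.χ = 1 then
      (y : ℂ) ^ (1 - ρ) / (1 - ρ) * e.L (1 + δ) else 0 := ⟨_, fun _ => rfl⟩
  have him2 : c.χ = 1 → 20 < |ρ.im| := by
    intro h1
    by_contra hcon
    refine H4 ρ (by linarith) (not_lt.1 hcon) (hρne h1) ?_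
    rw [← (triv_M_DHR c h1).2]
    exact hcL
  have hTF : ∀ y : ℝ, X ^ κ ≤ y → y ≤ X → ‖TF e δ c y ρ - A y‖ ≤ X ^ (-a) := by
    intro y hy1 hy2
    rw [hA]
    split_ifs with h1
    · have h20 := him2 h1
      exact (H2 X y c e δ ρ hXX₂ h1 (her.trans (mono' _ _ (h0a.trans ha2))) heRe hδ0.le
        (hδa.trans ha2) hcL (by linarith) (by linarith) hρ2 hy1 hy2).trans (mono _ _ ha2)
    · rw [sub_zero]
      exact (H1 X y c e δ ρ hXX₁ (hcr.trans (mono' _ _ (h0a.trans ha1)))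
        (her.trans (mono' _ _ (h0a.trans ha1))) heRe h1 hδ0.le (hδa.trans ha1) hcL (by linarith) hρ2
        (fun h2 => ⟨heL, (mono _ _ (h0a.trans ha1)).trans (hce h2)⟩) hy1 hy2).trans (mono _ _ ha1)
  -- the length
  obtain ⟨z, hz⟩ : ∃ z : ℝ, z = X ^ κ := ⟨_, rfl⟩
  obtain ⟨x, hx⟩ : ∃ x : ℝ, x = X ^ (5 * κ) := ⟨_, rfl⟩
  have hz1 : 1 ≤ z := by rw [hz]; exact Real.one_le_rpow hX1 hκ.le
  have hx1 : 1 ≤ x := by rw [hx]; exact Real.one_le_rpow hX1 (by positivity)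
  have hxX : x ≤ X := by
    rw [hx]
    calc X ^ (5 * κ) ≤ X ^ (1 : ℝ) := mono' _ _ (by linarith)
      _ = X := Real.rpow_one X
  have hz4 : z ^ 4 = X ^ (4 * κ) := by
    rw [hz, ← Real.rpow_natCast, ← Real.rpow_mul hX0.le]
    congr 1
    push_cast
    ring
  have hz5 : x = z ^ 4 * X ^ κ := by
    rw [hz4, hx, ← Real.rpow_add hX0]
    congr 1
    ring
  have hz4x : z ^ 4 ≤ x := by
    rw [hz4, hx]
    exact mono' _ _ (by linarith)
  have hlz : Real.log z = κ * Real.log X := by rw [hz, Real.log_rpow hX0]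
  have hexp := expand_M_DHR hδ0.le heRe.1 hhdi c ρ θ z x (by rw [hz]; exact hθ3) hθ4 (by linarith)
    hz4x
  obtain ⟨S, hS⟩ : ∃ S : ℂ, S = ∑ n ∈ Ioc 0 ⌊x⌋₊, ((ff e δ n * sd θ n ^ 2 : ℝ) : ℂ) *
    (c.ev n * (n : ℂ) ^ (-ρ)) := ⟨_, rfl⟩
  obtain ⟨B, hB⟩ : ∃ B : Finset ℕ, B = (Icc 1 ⌊z⌋₊).filter Squarefree := ⟨_, rfl⟩
  rw [← hS, ← hB] at hexp
  obtain ⟨M, hM⟩ : ∃ M : ℂ, M = ∑ d₁ ∈ B, ∑ d₂ ∈ B, ((θ d₁ * θ d₂ : ℝ) : ℂ) *
        ∑ m ∈ Icc 1 ((Nat.lcm d₁ d₂) ^ 2), (hd e δ (Nat.lcm d₁ d₂) m : ℂ) *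
          (c.ev m * (m : ℂ) ^ (-ρ)) * A (x / m) := ⟨_, rfl⟩
  have hBm : ∀ d ∈ B, 1 ≤ d ∧ (d : ℝ) ≤ z ∧ Squarefree d := by
    intro d hd
    rw [hB, mem_filter, mem_Icc] at hd
    exact ⟨hd.1.1, (Nat.le_floor_iff (by linarith)).1 hd.1.2, hd.2⟩
  -- error
  have herr : ‖S - M‖ ≤ 1 / 4 := by
    have h1 : S - M = ∑ d₁ ∈ B, ∑ d₂ ∈ B, ((θ d₁ * θ d₂ : ℝ) : ℂ) *
        ∑ m ∈ Icc 1 ((Nat.lcm d₁ d₂) ^ 2), (hd e δ (Nat.lcm d₁ d₂) m : ℂ) *
          (c.ev m * (m : ℂ) ^ (-ρ)) * (TF e δ c (x / m) ρ - A (x / m)) := by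
      rw [hexp, hM, ← sum_sub_distrib]
      refine sum_congr rfl fun d₁ _ => ?_
      rw [← sum_sub_distrib]
      refine sum_congr rfl fun d₂ _ => ?_
      rw [← mul_sub, ← sum_sub_distrib]
      congr 1
      refine sum_congr rfl fun m _ => ?_
      ring
    have h2 : ‖S - M‖ ≤ ∑ d₁ ∈ B, ∑ d₂ ∈ B, ∑ m ∈ Icc 1 ((Nat.lcm d₁ d₂) ^ 2),
        |hd e δ (Nat.lcm d₁ d₂) m| * (m : ℝ) ^ (-ρ.re) * X ^ (-a) := by
      rw [h1]
      refine (norm_sum_le _ _).trans (sum_le_sum fun d₁ hd₁ => ?_)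
      refine (norm_sum_le _ _).trans (sum_le_sum fun d₂ hd₂ => ?_)
      obtain ⟨hd11, hd12, hd13⟩ := hBm d₁ hd₁
      obtain ⟨hd21, hd22, hd23⟩ := hBm d₂ hd₂
      rw [norm_mul]
      have h3 : ‖((θ d₁ * θ d₂ : ℝ) : ℂ)‖ ≤ 1 := by
        rw [Complex.norm_real, Real.norm_eq_abs, abs_mul]
        exact mul_le_one₀ (hθ2 _) (abs_nonneg _) (hθ2 _)
      calc ‖((θ d₁ * θ d₂ : ℝ) : ℂ)‖ * ‖∑ m ∈ Icc 1 ((Nat.lcm d₁ d₂) ^ 2),
            (hd e δ (Nat.lcm d₁ d₂) m : ℂ) * (c.ev m * (m : ℂ) ^ (-ρ)) *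
              (TF e δ c (x / m) ρ - A (x / m))‖
          ≤ 1 * ‖∑ m ∈ Icc 1 ((Nat.lcm d₁ d₂) ^ 2),
            (hd e δ (Nat.lcm d₁ d₂) m : ℂ) * (c.ev m * (m : ℂ) ^ (-ρ)) *
              (TF e δ c (x / m) ρ - A (x / m))‖ := mul_le_mul_of_nonneg_right h3 (norm_nonneg _)
        _ ≤ _ := by
            rw [one_mul]
            refine (norm_sum_le _ _).trans (sum_le_sum fun m hm => ?_)
            rw [mem_Icc] at hm
            have hm0 : (0 : ℝ) < m := by exact_mod_cast hm.1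
            have hm1 : (1 : ℝ) ≤ m := by exact_mod_cast hm.1
            have hmz : (m : ℝ) ≤ z ^ 4 := by
              have h4 : ((Nat.lcm d₁ d₂ : ℕ) : ℝ) ≤ z * z := by
                have h5 : Nat.lcm d₁ d₂ ≤ d₁ * d₂ :=
                  Nat.le_of_dvd (Nat.mul_pos (by omega) (by omega)) (Nat.lcm_dvd_mul _ _)
                calc ((Nat.lcm d₁ d₂ : ℕ) : ℝ) ≤ ((d₁ * d₂ : ℕ) : ℝ) := by exact_mod_cast h5
                  _ = d₁ * d₂ := by push_cast; ring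
                  _ ≤ z * z := mul_le_mul hd12 hd22 (Nat.cast_nonneg _) (by linarith)
              calc (m : ℝ) ≤ (((Nat.lcm d₁ d₂) ^ 2 : ℕ) : ℝ) := by exact_mod_cast hm.2
                _ = ((Nat.lcm d₁ d₂ : ℕ) : ℝ) ^ 2 := by push_cast; ring
                _ ≤ (z * z) ^ 2 := pow_le_pow_left₀ (Nat.cast_nonneg _) h4 2
                _ = z ^ 4 := by ring
            have h6 : X ^ κ ≤ x / m := by
              rw [le_div_iff₀ hm0, hz5, mul_comm]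
              exact mul_le_mul_of_nonneg_right hmz (Real.rpow_nonneg hX0.le _)
            have h7 : x / m ≤ X := (div_le_self (by linarith) hm1).trans hxX
            have h8 := hTF _ h6 h7
            rw [norm_mul, norm_mul, norm_mul, Complex.norm_real, Real.norm_eq_abs,
              Complex.norm_natCast_cpow_of_pos hm.1, Complex.neg_re]
            have h9 : ‖c.ev m‖ ≤ 1 := DirichletCharacter.norm_le_one _ _
            refine mul_le_mul ?_ h8 (norm_nonneg _) (by positivity)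
            refine mul_le_mul_of_nonneg_left ?_ (abs_nonneg _)
            calc ‖c.ev m‖ * (m : ℝ) ^ (-ρ.re) ≤ 1 * (m : ℝ) ^ (-ρ.re) :=
                  mul_le_mul_of_nonneg_right h9 (by positivity)
              _ = _ := one_mul _
    have h3 := H3 e δ ρ.re z heRe.1 hδ0.le hz1 hσ
    rw [← hB] at h3
    have h4 : ∑ d₁ ∈ B, ∑ d₂ ∈ B, ∑ m ∈ Icc 1 ((Nat.lcm d₁ d₂) ^ 2),
        |hd e δ (Nat.lcm d₁ d₂) m| * (m : ℝ) ^ (-ρ.re) * X ^ (-a)
        = (∑ d₁ ∈ B, ∑ d₂ ∈ B, ∑ m ∈ Icc 1 ((Nat.lcm d₁ d₂) ^ 2),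
        |hd e δ (Nat.lcm d₁ d₂) m| * (m : ℝ) ^ (-ρ.re)) * X ^ (-a) := by
      rw [sum_mul]
      refine sum_congr rfl fun d₁ _ => ?_
      rw [sum_mul]
      refine sum_congr rfl fun d₂ _ => ?_
      rw [sum_mul]
    have h5 : z ^ (4 * (1 - ρ.re)) ≤ X ^ (a / 2) := by
      rw [hz, ← Real.rpow_mul hX0.le]
      apply mono'
      have h6 : 1 - ρ.re ≤ a := by linarith
      have h7 : 0 ≤ 1 - ρ.re := by linarith
      calc κ * (4 * (1 - ρ.re)) ≤ (1 / 10) * (4 * a) := by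
            apply mul_le_mul hκ1 (by linarith) (by linarith) (by norm_num)
        _ ≤ a / 2 := by linarith
    have h6 : (2 + Real.log z) ^ K ≤ (3 * Real.log X) ^ K := by
      apply pow_le_pow_left₀
      · rw [hlz]
        have : 0 ≤ κ * Real.log X := mul_nonneg hκ.le (by linarith)
        linarith
      · rw [hlz]
        have : κ * Real.log X ≤ 1 * Real.log X := mul_le_mul_of_nonneg_right (by linarith) (by linarith)
        linarith
    have h7 : X ^ (a / 2) * X ^ (-a) = Real.exp (-(a / 2 * Real.log X)) := by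
      rw [← Real.rpow_add hX0, Real.rpow_def_of_pos hX0]
      congr 1
      ring
    have hlz0 : 0 ≤ Real.log z := Real.log_nonneg hz1
    calc ‖S - M‖ ≤ _ := h2
      _ = _ := h4
      _ ≤ (z ^ (4 * (1 - ρ.re)) * (2 + Real.log z) ^ K) * X ^ (-a) :=
          mul_le_mul_of_nonneg_right h3 (Real.rpow_nonneg hX0.le _)
      _ ≤ (X ^ (a / 2) * (3 * Real.log X) ^ K) * X ^ (-a) := by
          refine mul_le_mul_of_nonneg_right ?_ (Real.rpow_nonneg hX0.le _)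
          exact mul_le_mul h5 h6 (by positivity) (Real.rpow_nonneg hX0.le _)
      _ = (3 * Real.log X) ^ K * (X ^ (a / 2) * X ^ (-a)) := by ring
      _ = (3 * Real.log X) ^ K * Real.exp (-(a / 2 * Real.log X)) := by rw [h7]
      _ ≤ 1 / 4 := hL₀ _ hL0
  -- main term
  have hxre : x ^ (1 - ρ.re) = X ^ (5 * κ * (1 - ρ.re)) := by
    rw [hx, ← Real.rpow_mul hX0.le]
  have hx0 : 0 < x := by linarith
  have hmain : ‖M‖ ≤ C₄ * (δ * Real.log X) * X ^ (5 * κ * (1 - ρ.re)) := by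
    by_cases h1 : c.χ = 1
    · have h20 := him2 h1
      have hone : (1 : ℂ) - ρ ≠ 0 := by
        rw [sub_ne_zero]
        exact (hρne h1).symm
      have hbig : 1 ≤ ‖(1 : ℂ) - ρ‖ := by
        have h3 := Complex.abs_im_le_norm ((1 : ℂ) - ρ)
        simp only [Complex.sub_im, Complex.one_im, zero_sub, abs_neg] at h3
        linarith
      obtain ⟨Q, hQ⟩ : ∃ Q : ℝ, Q = ∑ d₁ ∈ Icc 1 ⌊X ^ κ⌋₊, ∑ d₂ ∈ Icc 1 ⌊X ^ κ⌋₊,
        θ d₁ * θ d₂ * gD (gf e δ) (Nat.lcm d₁ d₂) := ⟨_, rfl⟩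
      rw [← hQ] at hθ6 hθ7
      have hQB : Q = ∑ d₁ ∈ B, ∑ d₂ ∈ B, θ d₁ * θ d₂ * gD (gf e δ) (Nat.lcm d₁ d₂) := by
        rw [hQ, hB, ← hz, sum_filter]
        refine sum_congr rfl fun d₁ _ => ?_
        split_ifs with h2
        · rw [sum_filter]
          refine sum_congr rfl fun d₂ _ => ?_
          split_ifs with h3
          · rfl
          · rw [hθ4 d₂ h3]
            simp
        · refine sum_eq_zero fun d₂ _ => ?_
          rw [hθ4 d₁ h2]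
          simp
      have hMQ : M = (x : ℂ) ^ (1 - ρ) / (1 - ρ) * e.L (1 + δ) * (Q : ℂ) := by
        rw [hM, hQB, Complex.ofReal_sum, mul_sum]
        refine sum_congr rfl fun d₁ hd₁ => ?_
        rw [Complex.ofReal_sum, mul_sum]
        refine sum_congr rfl fun d₂ hd₂ => ?_
        have hsq : Squarefree (Nat.lcm d₁ d₂) := sqf_lcm_M_DHR (hBm d₁ hd₁).2.2 (hBm d₂ hd₂).2.2
        have h3 := (hhdi e δ heRe.1 hδ0.le _ hsq).2.2
        rw [← h3]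
        have h4 : ∑ m ∈ Icc 1 ((Nat.lcm d₁ d₂) ^ 2), (hd e δ (Nat.lcm d₁ d₂) m : ℂ) *
            (c.ev m * (m : ℂ) ^ (-ρ)) * A (x / m)
            = (x : ℂ) ^ (1 - ρ) / (1 - ρ) * e.L (1 + δ) *
              ((∑ m ∈ Icc 1 ((Nat.lcm d₁ d₂) ^ 2), hd e δ (Nat.lcm d₁ d₂) m / m : ℝ) : ℂ) := by
          rw [Complex.ofReal_sum, mul_sum]
          refine sum_congr rfl fun m hm => ?_
          rw [mem_Icc] at hm
          have hm0 : (0 : ℝ) < m := by exact_mod_cast hm.1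
          have hmc : (m : ℂ) ≠ 0 := by
            have : m ≠ 0 := by omega
            exact_mod_cast this
          rw [(triv_M_DHR c h1).1, hA, if_pos h1, one_mul]
          have h5 : (((x / m : ℝ)) : ℂ) ^ (1 - ρ) * (m : ℂ) ^ (1 - ρ) = (x : ℂ) ^ (1 - ρ) := by
            have h6 := Complex.mul_cpow_ofReal_nonneg (a := x / m) (b := m) (by positivity)
              hm0.le (1 - ρ)
            rw [← Complex.ofReal_mul, div_mul_cancel₀ _ hm0.ne'] at h6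
            rw [h6]
            push_cast
            rfl
          have h7 : (m : ℂ) ^ (1 - ρ) = m * (m : ℂ) ^ (-ρ) := by
            rw [sub_eq_add_neg, Complex.cpow_add _ _ hmc, Complex.cpow_one]
          have h8 : (m : ℂ) ^ (-ρ) * (((x / m : ℝ)) : ℂ) ^ (1 - ρ) = (x : ℂ) ^ (1 - ρ) / m := by
            rw [eq_div_iff hmc, ← h5, h7]
            ring
          calc (hd e δ (Nat.lcm d₁ d₂) m : ℂ) * (m : ℂ) ^ (-ρ) *
                ((((x / m : ℝ)) : ℂ) ^ (1 - ρ) / (1 - ρ) * e.L (1 + δ))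
              = (hd e δ (Nat.lcm d₁ d₂) m : ℂ) *
                ((m : ℂ) ^ (-ρ) * (((x / m : ℝ)) : ℂ) ^ (1 - ρ)) / (1 - ρ) * e.L (1 + δ) := by ring
            _ = _ := by
                rw [h8]
                push_cast
                ring
        rw [h4]
        push_cast
        ring
      rw [hMQ, norm_mul, norm_mul, norm_div, real_M_DHR e (fun n => (hev n).1) δ hδ0,
        Complex.norm_cpow_eq_rpow_re_of_pos hx0, Complex.norm_real, Real.norm_eq_abs,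
        abs_of_nonneg hθ6, Complex.sub_re, Complex.one_re, hxre]
      have h9 : 0 ≤ X ^ (5 * κ * (1 - ρ.re)) := Real.rpow_nonneg hX0.le _
      calc X ^ (5 * κ * (1 - ρ.re)) / ‖(1 : ℂ) - ρ‖ * |(e.L (1 + δ)).re| * Q
          = X ^ (5 * κ * (1 - ρ.re)) / ‖(1 : ℂ) - ρ‖ * (Q * |(e.L (1 + δ)).re|) := by ring
        _ ≤ X ^ (5 * κ * (1 - ρ.re)) * (C₄ * δ) := by
            refine mul_le_mul (div_le_self h9 hbig) hθ7 (by positivity) h9
        _ ≤ X ^ (5 * κ * (1 - ρ.re)) * (C₄ * (δ * Real.log X)) := by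
            refine mul_le_mul_of_nonneg_left (mul_le_mul_of_nonneg_left ?_ (by linarith)) h9
            exact le_mul_of_one_le_right hδ0.le hL1
        _ = _ := by ring
    · have h2 : M = 0 := by
        rw [hM]
        refine sum_eq_zero fun d₁ _ => sum_eq_zero fun d₂ _ => ?_
        rw [sum_eq_zero, mul_zero]
        intro m _
        rw [hA, if_neg h1, mul_zero]
      rw [h2, norm_zero]
      positivity
  -- the tail
  have hN1 : 1 ≤ ⌊x⌋₊ := Nat.le_floor (by exact_mod_cast hx1)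
  obtain ⟨T, hT⟩ : ∃ T : ℂ, T = ∑ n ∈ Ioc 1 ⌊x⌋₊, ((ff e δ n * sd θ n ^ 2 : ℝ) : ℂ) *
    (c.ev n * (n : ℂ) ^ (-ρ)) := ⟨_, rfl⟩
  have hST : S = 1 + T := by
    rw [hS, hT, ← sum_Ioc_consecutive _ zero_le_one hN1]
    congr 1
    have : Ioc 0 1 = ({1} : Finset ℕ) := rfl
    rw [this, sum_singleton, hff1]
    simp [sd, hθ1, PCh.ev]
  have hTb : ‖T‖ ≤ C₄ * (δ * Real.log X) * X ^ (5 * κ * (1 - ρ.re)) := by
    rw [← hx] at hθ5
    calc ‖T‖ ≤ ∑ n ∈ Ioc 1 ⌊x⌋₊, X ^ (5 * κ * (1 - ρ.re)) * (ff e δ n * sd θ n ^ 2 / n) := by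
          rw [hT]
          refine (norm_sum_le _ _).trans (sum_le_sum fun n hn => ?_)
          rw [mem_Ioc] at hn
          have hn0 : (0 : ℝ) < n := by
            have : 0 < n := by omega
            exact_mod_cast this
          have hnx : (n : ℝ) ≤ x := (Nat.le_floor_iff hx0.le).1 hn.2
          have h3 : 0 ≤ ff e δ n * sd θ n ^ 2 := mul_nonneg (hff0 n) (sq_nonneg _)
          rw [norm_mul, norm_mul, Complex.norm_real, Real.norm_eq_abs, abs_of_nonneg h3,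
            Complex.norm_natCast_cpow_of_pos (by omega), Complex.neg_re]
          have h4 : ‖c.ev n‖ ≤ 1 := DirichletCharacter.norm_le_one _ _
          have h5 : (n : ℝ) ^ (-ρ.re) ≤ X ^ (5 * κ * (1 - ρ.re)) / n := by
            rw [le_div_iff₀ hn0, ← hxre]
            calc (n : ℝ) ^ (-ρ.re) * n = (n : ℝ) ^ (-ρ.re) * (n : ℝ) ^ (1 : ℝ) := by
                  rw [Real.rpow_one]
              _ = (n : ℝ) ^ (1 - ρ.re) := by
                  rw [← Real.rpow_add hn0]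
                  congr 1
                  ring
              _ ≤ x ^ (1 - ρ.re) := Real.rpow_le_rpow hn0.le hnx (by linarith)
          calc ff e δ n * sd θ n ^ 2 * (‖c.ev n‖ * (n : ℝ) ^ (-ρ.re))
              ≤ ff e δ n * sd θ n ^ 2 * (1 * (X ^ (5 * κ * (1 - ρ.re)) / n)) := by
                refine mul_le_mul_of_nonneg_left ?_ h3
                exact mul_le_mul h4 h5 (by positivity) zero_le_one
            _ = _ := by ring
      _ = X ^ (5 * κ * (1 - ρ.re)) * ∑ n ∈ Ioc 1 ⌊x⌋₊, ff e δ n * sd θ n ^ 2 / n := by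
          rw [mul_sum]
      _ ≤ X ^ (5 * κ * (1 - ρ.re)) * (C₄ * (δ * Real.log X)) :=
          mul_le_mul_of_nonneg_left hθ5 (Real.rpow_nonneg hX0.le _)
      _ = _ := by ring
  -- conclusion
  have hfin : (1 : ℝ) ≤ ‖S - M‖ + ‖M‖ + ‖T‖ := by
    have h1 : (1 : ℂ) = (S - M) + M - T := by rw [hST]; ring
    calc (1 : ℝ) = ‖(1 : ℂ)‖ := by simp
      _ = ‖(S - M) + M - T‖ := by rw [← h1]
      _ ≤ ‖(S - M) + M‖ + ‖T‖ := norm_sub_le _ _
      _ ≤ ‖S - M‖ + ‖M‖ + ‖T‖ := by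
          have := norm_add_le (S - M) M
          linarith
  have h10 : 0 ≤ C₄ * (δ * Real.log X) * X ^ (5 * κ * (1 - ρ.re)) := (norm_nonneg _).trans hTb
  have h11 : 4 * C₄ * (δ * Real.log X) * X ^ (5 * κ * (1 - ρ.re))
      = 4 * (C₄ * (δ * Real.log X) * X ^ (5 * κ * (1 - ρ.re))) := by ring
  rw [h11]
  linarith

end Pool.Agent.Helper47.MV
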