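import Pool.Agent.Helper23.MV.StC

set_option autoImplicit false

namespace Pool.Agent.Helper47.MV

open Finset ArithmeticFunction MeasureTheory
open Pool.Agent.Helper23.MV
open Pool.Agent.Helper48.BK (ex th)
open Pool.Agent.Helper23.GK (SS)

private theorem cont_ex_M_MJB (a : ℝ) : Continuous fun β : ℝ => ex (a * β) := by
  unfold ex
  fun_prop

private theorem norm_ex_M_MJB (t : ℝ) : ‖ex t‖ = 1 := by
  unfold ex
  rw [Complex.norm_exp]
  simp

private theorem ex_int_M_MJB (k : ℤ) :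
    ∫ β in (-(1 / 2 : ℝ))..(1 / 2), ex ((k : ℝ) * β) = if k = 0 then 1 else 0 := by
  split_ifs with hk
  · subst hk
    simp [ex]
    norm_num
  · have hc : (2 * Real.pi * k * Complex.I : ℂ) ≠ 0 := by
      have : (k : ℂ) ≠ 0 := by exact_mod_cast hk
      have h2 : (Real.pi : ℂ) ≠ 0 := by exact_mod_cast Real.pi_ne_zero
      simp [this, h2, Complex.I_ne_zero]
    have h1 : ∀ β : ℝ, ex ((k : ℝ) * β) = Complex.exp ((2 * Real.pi * k * Complex.I : ℂ) * β) := by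
      intro β
      unfold ex
      congr 1
      push_cast
      ring
    simp_rw [h1]
    rw [integral_exp_mul_complex hc]
    have h2 : Complex.exp ((2 * Real.pi * k * Complex.I : ℂ) * ((1 / 2 : ℝ) : ℂ)) =
        Complex.exp ((2 * Real.pi * k * Complex.I : ℂ) * ((-(1 / 2) : ℝ) : ℂ)) := by
      rw [Complex.exp_eq_exp_iff_exists_int]
      refine ⟨k, ?_⟩
      push_cast
      ring
    rw [h2, sub_self, zero_div]

private theorem pars_M_MJB (s : Finset ℕ) (c : ℕ → ℂ) :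
    ∫ β in (-(1 / 2 : ℝ))..(1 / 2), ‖∑ n ∈ s, c n * ex (n * β)‖ ^ 2 = ∑ n ∈ s, ‖c n‖ ^ 2 := by
  have h1 : ∀ β : ℝ, (((‖∑ n ∈ s, c n * ex (n * β)‖ ^ 2 : ℝ)) : ℂ) =
      ∑ n ∈ s, ∑ m ∈ s, (c n * (starRingEnd ℂ) (c m)) * ex ((((n : ℤ) - m : ℤ) : ℝ) * β) := by
    intro β
    have h2 := Complex.mul_conj' (∑ n ∈ s, c n * ex (n * β))
    rw [Complex.ofReal_pow, ← h2, map_sum, sum_mul_sum]
    refine sum_congr rfl fun n _ => sum_congr rfl fun m _ => ?_
    rw [map_mul]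
    have h3 : (starRingEnd ℂ) (ex (m * β)) = ex (-(m * β)) := by
      unfold ex
      rw [← Complex.exp_conj]
      congr 1
      simp only [map_mul, Complex.conj_ofReal, Complex.conj_I, map_ofNat]
      push_cast
      ring
    have h4 : ex (n * β) * ex (-(m * β)) = ex ((((n : ℤ) - m : ℤ) : ℝ) * β) := by
      unfold ex
      rw [← Complex.exp_add]
      congr 1
      push_cast
      ring
    rw [h3, ← h4]
    ring
  have h5 : ((∫ β in (-(1 / 2 : ℝ))..(1 / 2), ‖∑ n ∈ s, c n * ex (n * β)‖ ^ 2 : ℝ) : ℂ) =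
      ((∑ n ∈ s, ‖c n‖ ^ 2 : ℝ) : ℂ) := by
    rw [← intervalIntegral.integral_ofReal]
    simp_rw [h1]
    rw [intervalIntegral.integral_finsetSum]
    · rw [Complex.ofReal_sum]
      refine sum_congr rfl fun n hn => ?_
      rw [intervalIntegral.integral_finsetSum]
      · rw [sum_eq_single n]
        · rw [intervalIntegral.integral_const_mul, ex_int_M_MJB]
          simp [Complex.mul_conj']
        · intro m _ hmn
          rw [intervalIntegral.integral_const_mul, ex_int_M_MJB, if_neg, mul_zero]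
          omega
        · intro h
          exact absurd hn h
      · intro m _
        exact ((cont_ex_M_MJB _).const_smul (c n * (starRingEnd ℂ) (c m))).intervalIntegrable _ _
    · intro n _
      exact (continuous_finsetSum _ fun m _ =>
        (cont_ex_M_MJB _).const_smul (c n * (starRingEnd ℂ) (c m))).intervalIntegrable _ _
  exact_mod_cast h5

private theorem contsum_M_MJB (s : Finset ℕ) (c : ℕ → ℂ) :
    Continuous fun β : ℝ => ∑ n ∈ s, c n * ex (n * β) :=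
  continuous_finsetSum _ fun m _ => (cont_ex_M_MJB _).const_smul (c m)

private theorem nrm_le_M_MJB (s : Finset ℕ) (c : ℕ → ℂ) (B K : ℝ) (hB0 : 0 ≤ B) (hB : B ≤ 1 / 2)
    (hK : 0 ≤ K) (h : ∑ n ∈ s, ‖c n‖ ^ 2 ≤ K ^ 2) :
    nrm (fun β => ∑ n ∈ s, c n * ex (n * β)) B ≤ K := by
  unfold nrm
  rw [Real.sqrt_le_left hK]
  refine le_trans ?_ h
  rw [← pars_M_MJB s c]
  refine intervalIntegral.integral_mono_interval (by linarith) (by linarith) hB ?_ ?_
  · exact Filter.Eventually.of_forall fun β => sq_nonneg _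
  · exact ((contsum_M_MJB s c).norm.pow 2).intervalIntegrable _ _

private theorem cs_M_MJB (F G : ℝ → ℂ) (hF : Continuous F) (hG : Continuous G) (B t : ℝ)
    (hB : 0 ≤ B) :
    ‖∫ β in (-B)..B, F β * G β * ex (-(t * β))‖ ≤ nrm F B * nrm G B := by
  have hle : -B ≤ B := by linarith
  have h1 : ‖∫ β in (-B)..B, F β * G β * ex (-(t * β))‖ ≤ ∫ β in (-B)..B, ‖F β‖ * ‖G β‖ := by
    refine (intervalIntegral.norm_integral_le_integral_norm hle).trans (le_of_eq ?_)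
    refine intervalIntegral.integral_congr fun β _ => ?_
    simp only [norm_mul, norm_ex_M_MJB, mul_one]
  refine h1.trans ?_
  obtain ⟨a, ha⟩ : ∃ a : ℝ, a = ∫ β in (-B)..B, ‖F β‖ ^ 2 := ⟨_, rfl⟩
  obtain ⟨b, hb⟩ : ∃ b : ℝ, b = ∫ β in (-B)..B, ‖F β‖ * ‖G β‖ := ⟨_, rfl⟩
  obtain ⟨c, hc⟩ : ∃ c : ℝ, c = ∫ β in (-B)..B, ‖G β‖ ^ 2 := ⟨_, rfl⟩
  have i1 : IntervalIntegrable (fun β => ‖F β‖ ^ 2) volume (-B) B :=
    (hF.norm.pow 2).intervalIntegrable _ _
  have i2 : IntervalIntegrable (fun β => ‖F β‖ * ‖G β‖) volume (-B) B :=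
    (hF.norm.mul hG.norm).intervalIntegrable _ _
  have i3 : IntervalIntegrable (fun β => ‖G β‖ ^ 2) volume (-B) B :=
    (hG.norm.pow 2).intervalIntegrable _ _
  have ha0 : 0 ≤ a := by
    rw [ha]
    exact intervalIntegral.integral_nonneg hle fun β _ => sq_nonneg _
  have key : ∀ x : ℝ, 0 ≤ a * (x * x) + (-2 * b) * x + c := by
    intro x
    have h2 : 0 ≤ ∫ β in (-B)..B, (x * ‖F β‖ - ‖G β‖) ^ 2 :=
      intervalIntegral.integral_nonneg hle fun β _ => sq_nonneg _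
    have h3 : ∫ β in (-B)..B, (x * ‖F β‖ - ‖G β‖) ^ 2 = a * (x * x) + (-2 * b) * x + c := by
      have h4 : ∀ β : ℝ, (x * ‖F β‖ - ‖G β‖) ^ 2 =
          ((x * x) * ‖F β‖ ^ 2 + (-2 * x) * (‖F β‖ * ‖G β‖)) + ‖G β‖ ^ 2 := fun β => by ring
      simp_rw [h4]
      rw [intervalIntegral.integral_add ((i1.const_mul _).add (i2.const_mul _)) i3,
        intervalIntegral.integral_add (i1.const_mul _) (i2.const_mul _),
        intervalIntegral.integral_const_mul, intervalIntegral.integral_const_mul, ← ha, ← hb, ← hc]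
      ring
    rw [← h3]
    exact h2
  have hd := discrim_le_zero key
  unfold discrim at hd
  have h5 : b ^ 2 ≤ a * c := by nlinarith
  unfold nrm
  rw [← ha, ← hb, ← hc, ← Real.sqrt_mul ha0]
  exact Real.le_sqrt_of_sq_le h5

private theorem split_M_MJB (F₁ F₂ G₁ G₂ : ℝ → ℂ) (h1 : Continuous F₁) (h2 : Continuous F₂)
    (h3 : Continuous G₁) (h4 : Continuous G₂) (B t : ℝ) :
    (∫ β in (-B)..B, (F₁ β + F₂ β) * (G₁ β + G₂ β) * ex (-(t * β))) =
      (∫ β in (-B)..B, F₁ β * G₁ β * ex (-(t * β))) +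
      ((∫ β in (-B)..B, F₂ β * G₁ β * ex (-(t * β))) +
      ((∫ β in (-B)..B, F₁ β * G₂ β * ex (-(t * β))) +
      (∫ β in (-B)..B, F₂ β * G₂ β * ex (-(t * β))))) := by
  have he : Continuous fun β : ℝ => ex (-(t * β)) := by
    have := cont_ex_M_MJB (-t)
    simpa [neg_mul] using this
  have j : ∀ F G : ℝ → ℂ, Continuous F → Continuous G →
      IntervalIntegrable (fun β => F β * G β * ex (-(t * β))) volume (-B) B :=
    fun F G hF hG => ((hF.mul hG).mul he).intervalIntegrable _ _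
  rw [← intervalIntegral.integral_add (j _ _ h1 h4) (j _ _ h2 h4),
    ← intervalIntegral.integral_add (j _ _ h2 h3) ((j _ _ h1 h4).add (j _ _ h2 h4)),
    ← intervalIntegral.integral_add (j _ _ h1 h3) ((j _ _ h2 h3).add ((j _ _ h1 h4).add (j _ _ h2 h4)))]
  refine intervalIntegral.integral_congr fun β _ => ?_
  ring

private theorem triv_eq_M_MJB (c c' : PCh) (h : c.χ = 1) (h' : c'.χ = 1) : c = c' := by
  have h1 : c.χ.conductor = c.r := c.prim
  rw [h, DirichletCharacter.conductor_one] at h1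
  have h2 : c'.χ.conductor = c'.r := c'.prim
  rw [h', DirichletCharacter.conductor_one] at h2
  obtain ⟨r, hr, χ, prim⟩ := c
  obtain ⟨r', hr', χ', prim'⟩ := c'
  change χ = (1 : DirichletCharacter ℂ r) at h
  change χ' = (1 : DirichletCharacter ℂ r') at h'
  change 1 = r at h1
  change 1 = r' at h2
  subst h1
  subst h2
  subst h
  subst h'
  rfl

open Classical in
private noncomputable def mc (o : Option (PCh × ℝ)) (c : PCh) : ℝ :=
  if c.χ = 1 ∨ ∃ δ, o = some (c, δ) then 1 else 0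

private theorem mc_nonneg_M_MJB (o : Option (PCh × ℝ)) (c : PCh) : 0 ≤ mc o c := by
  unfold mc
  split_ifs <;> norm_num

private theorem mc_sum_M_MJB (o : Option (PCh × ℝ)) (s : Finset PCh) : ∑ c ∈ s, mc o c ≤ 2 := by
  classical
  have h1 : ∀ c ∈ s, mc o c ≤ (if c.χ = 1 then (1 : ℝ) else 0) +
      (if ∃ δ, o = some (c, δ) then (1 : ℝ) else 0) := by
    intro c _
    unfold mc
    by_cases h2 : c.χ = 1 <;> by_cases h3 : ∃ δ, o = some (c, δ) <;> norm_num [h2, h3]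
  refine (sum_le_sum h1).trans ?_
  rw [sum_add_distrib, ← sum_filter, ← sum_filter, sum_const, sum_const]
  have h2 : (s.filter (fun c => c.χ = 1)).card ≤ 1 := by
    rw [card_le_one]
    intro a ha b hb
    rw [mem_filter] at ha hb
    exact triv_eq_M_MJB a b ha.2 hb.2
  have h3 : (s.filter (fun c => ∃ δ, o = some (c, δ))).card ≤ 1 := by
    rw [card_le_one]
    intro a ha b hb
    rw [mem_filter] at ha hb
    obtain ⟨δ, hδ⟩ := ha.2
    obtain ⟨δ', hδ'⟩ := hb.2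
    rw [hδ] at hδ'
    have := Option.some.inj hδ'
    exact (Prod.mk.inj this).1
  have h4 : ((s.filter (fun c => c.χ = 1)).card : ℝ) ≤ 1 := by exact_mod_cast h2
  have h5 : ((s.filter (fun c => ∃ δ, o = some (c, δ))).card : ℝ) ≤ 1 := by exact_mod_cast h3
  simp only [nsmul_eq_mul, mul_one]
  linarith

private theorem mwt_M_MJB (o : Option (PCh × ℝ)) (ho : OKb o 1) (c : PCh) (n : ℕ) (hn : 1 ≤ n) :
    |mwt o c n| ≤ mc o c := by
  have hn1 : (1 : ℝ) ≤ n := by exact_mod_cast hn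
  unfold mwt mc
  rcases o with _ | ⟨e, δ⟩
  · by_cases h1 : c.χ = 1 <;> simp [h1]
  · obtain ⟨hRe, hδ, _⟩ := ho e δ rfl
    by_cases h2 : c = e
    · subst h2
      have h3 : ¬ c.χ = 1 := hRe.2
      have h4 : (n : ℝ) ^ (-δ) ≤ 1 := Real.rpow_le_one_of_one_le_of_nonpos hn1 (by linarith)
      have h5 : 0 ≤ (n : ℝ) ^ (-δ) := by positivity
      simp [h3, abs_of_nonneg h5, h4]
    · by_cases h1 : c.χ = 1
      · simp [h1, h2]
      · have h6 : ¬ e = c := fun h => h2 h.symm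
        simp [h1, h2, h6]

private theorem vt_M_MJB (N₀ H : ℕ) (u : ℝ) : 0 ≤ vt N₀ H u ∧ vt N₀ H u ≤ 1 :=
  ⟨le_max_left _ _, max_le zero_le_one (min_le_left _ _)⟩

private theorem vt0_M_MJB (N₀ H : ℕ) (hH : 1 ≤ H) (u : ℝ) (hu : u ≤ (N₀ : ℝ) - 4 * H) :
    vt N₀ H u = 0 := by
  have hH' : (0 : ℝ) < H := by exact_mod_cast hH
  unfold vt
  apply max_eq_left
  refine (min_le_right _ _).trans ((min_le_left _ _).trans ?_)
  exact div_nonpos_of_nonpos_of_nonneg (by linarith) hH'.le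

private theorem nrm_Mf_M_MJB (o : Option (PCh × ℝ)) (ho : OKb o 1) (c : PCh) (H : ℕ) (B : ℝ)
    (hB0 : 0 ≤ B) (hB : B ≤ 1 / 2) : nrm (Mf o c H) B ≤ √(H : ℝ) * mc o c := by
  have h1 : Mf o c H = fun β => ∑ n ∈ Ioc (2 * H) (3 * H), ((mwt o c n : ℝ) : ℂ) * ex (n * β) := rfl
  rw [h1]
  refine nrm_le_M_MJB _ _ B _ hB0 hB (mul_nonneg (Real.sqrt_nonneg _) (mc_nonneg_M_MJB o c)) ?_
  rw [mul_pow, Real.sq_sqrt (Nat.cast_nonneg H)]
  calc ∑ n ∈ Ioc (2 * H) (3 * H), ‖((mwt o c n : ℝ) : ℂ)‖ ^ 2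
      ≤ ∑ n ∈ Ioc (2 * H) (3 * H), (mc o c) ^ 2 := by
        refine sum_le_sum fun n hn => ?_
        rw [mem_Ioc] at hn
        rw [Complex.norm_real, Real.norm_eq_abs]
        exact pow_le_pow_left₀ (abs_nonneg _) (mwt_M_MJB o ho c n (by omega)) 2
    _ = (H : ℝ) * (mc o c) ^ 2 := by
        rw [sum_const, Nat.card_Ioc, nsmul_eq_mul]
        congr 2
        omega

private theorem nrm_Mg_M_MJB (o : Option (PCh × ℝ)) (ho : OKb o 1) (c : PCh) (N₀ H : ℕ) (B : ℝ)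
    (hH : 1 ≤ H) (hN : 4 * H < N₀)
    (hB0 : 0 ≤ B) (hB : B ≤ 1 / 2) : nrm (Mg o c N₀ H) B ≤ 2 * √(H : ℝ) * mc o c := by
  have h1 : Mg o c N₀ H = fun β => ∑ m ∈ Icc 1 N₀, (((mwt o c m : ℝ) : ℂ) * ((vt N₀ H m : ℝ) : ℂ)) *
    ex (m * β) := rfl
  rw [h1]
  refine nrm_le_M_MJB _ _ B _ hB0 hB (mul_nonneg (mul_nonneg (by norm_num) (Real.sqrt_nonneg _))
    (mc_nonneg_M_MJB o c)) ?_
  rw [mul_pow, mul_pow, Real.sq_sqrt (Nat.cast_nonneg H)]
  calc ∑ n ∈ Icc 1 N₀, ‖((mwt o c n : ℝ) : ℂ) * ((vt N₀ H n : ℝ) : ℂ)‖ ^ 2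
      ≤ ∑ n ∈ Icc 1 N₀, if N₀ - 4 * H < n then (mc o c) ^ 2 else 0 := by
        refine sum_le_sum fun n hn => ?_
        rw [mem_Icc] at hn
        have hv := vt_M_MJB N₀ H n
        rw [norm_mul, Complex.norm_real, Real.norm_eq_abs, Complex.norm_real, Real.norm_eq_abs,
          abs_of_nonneg hv.1]
        split_ifs with h2
        · refine pow_le_pow_left₀ (mul_nonneg (abs_nonneg _) hv.1) ?_ 2
          calc |mwt o c n| * vt N₀ H n ≤ mc o c * 1 :=
                mul_le_mul (mwt_M_MJB o ho c n hn.1) hv.2 hv.1 (mc_nonneg_M_MJB o c)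
            _ = mc o c := mul_one _
        · have h3 : vt N₀ H n = 0 := by
            apply vt0_M_MJB N₀ H hH
            have h4 : n + 4 * H ≤ N₀ := by omega
            have h5 : (n : ℝ) + 4 * H ≤ N₀ := by exact_mod_cast h4
            linarith
          rw [h3]
          simp
    _ = ((N₀ - (N₀ - 4 * H) : ℕ) : ℝ) * (mc o c) ^ 2 := by
        rw [← sum_filter, sum_const, nsmul_eq_mul]
        congr 2
        have : (Icc 1 N₀).filter (fun n => N₀ - 4 * H < n) = Ioc (N₀ - 4 * H) N₀ := by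
          ext n
          simp only [mem_filter, mem_Icc, mem_Ioc]
          omega
        rw [this, Nat.card_Ioc]
    _ = 2 ^ 2 * (H : ℝ) * (mc o c) ^ 2 := by
        have : N₀ - (N₀ - 4 * H) = 4 * H := by omega
        rw [this]
        push_cast
        ring

theorem hMjb : StFin → StKfo → StJin → StMjb := by
  classical
  rintro - ⟨-, C, hC, hK⟩ hJ
  refine ⟨16 * C, by linarith, ?_⟩
  intro o H N₀ N P ε a b ho hH hHN hN1 hN2 hev hP hPH hε0 hε1 hab ha hb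
  have hH0 : (0 : ℝ) < H := by exact_mod_cast hH
  have hP0 : 0 < P := by linarith
  obtain ⟨B, hB⟩ : ∃ B : ℝ, B = P / H := ⟨_, rfl⟩
  have hB0 : 0 < B := by rw [hB]; positivity
  have hB2 : B ≤ 1 / 2 := by
    rw [hB, div_le_iff₀ hH0]
    linarith
  rw [← hB] at hab ⊢
  have h4B : 4 / B = 4 * H / P := by
    rw [hB]
    field_simp
  have hSS : 0 ≤ SS N := by
    have h1 := hK ⟨1, one_ne_zero, 1, DirichletCharacter.isPrimitive_one_level_one⟩
      ⟨1, one_ne_zero, 1, DirichletCharacter.isPrimitive_one_level_one⟩ P N hP (by omega) hev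
    have h2 := (norm_nonneg _).trans h1
    exact nonneg_of_mul_nonneg_right h2 (by linarith)
  have cMf : ∀ c, Continuous (Mf o c H) := fun c => contsum_M_MJB _ _
  have cMg : ∀ c, Continuous (Mg o c N₀ H) := fun c =>
    contsum_M_MJB (Icc 1 N₀) (fun m => ((mwt o c m : ℝ) : ℂ) * ((vt N₀ H m : ℝ) : ℂ))
  have cEf : ∀ c, Continuous (Ef o c H) := fun c =>
    contsum_M_MJB (Ioc (2 * H) (3 * H)) (fun n => ((th n : ℝ) : ℂ) * c.ev n - ((mwt o c n : ℝ) : ℂ))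
  have cEg : ∀ c, Continuous (Eg o c N₀ H) := fun c =>
    contsum_M_MJB (Icc 1 N₀)
      (fun m => (((th m : ℝ) : ℂ) * c.ev m - ((mwt o c m : ℝ) : ℂ)) * ((vt N₀ H m : ℝ) : ℂ))
  have hpair : ∀ c₁ ∈ PS P, ∀ c₂ ∈ PS P,
      ‖(∫ β in (-B)..B, (Mf o c₁ H β + Ef o c₁ H β) * (Mg o c₂ N₀ H β + Eg o c₂ N₀ H β) *
        ex (-(N * β))) -
      ((∑ n ∈ Ioc (2 * H) (3 * H), mwt o c₁ n * mwt o c₂ ((N - n : ℕ) : ℝ) : ℝ) : ℂ)‖ ≤
      H * (2 * (a c₁ * mc o c₂) + mc o c₁ * b c₂ + a c₁ * b c₂) +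
        4 * H / P * (mc o c₁ * mc o c₂) := by
    intro c₁ hc₁ c₂ hc₂
    obtain ⟨ha1, _, ha2, _⟩ := hab c₁ hc₁
    obtain ⟨_, hb1, _, hb2⟩ := hab c₂ hc₂
    have hm1 := mc_nonneg_M_MJB o c₁
    have hm2 := mc_nonneg_M_MJB o c₂
    rw [split_M_MJB _ _ _ _ (cMf c₁) (cEf c₁) (cMg c₂) (cEg c₂)]
    have e1 := cs_M_MJB _ _ (cEf c₁) (cMg c₂) B N hB0.le
    have e2 := cs_M_MJB _ _ (cMf c₁) (cEg c₂) B N hB0.le
    have e3 := cs_M_MJB _ _ (cEf c₁) (cEg c₂) B N hB0.le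
    have n0 : ∀ (F : ℝ → ℂ), 0 ≤ nrm F B := fun F => Real.sqrt_nonneg _
    have n1 := nrm_Mf_M_MJB o ho c₁ H B hB0.le hB2
    have n2 := nrm_Mg_M_MJB o ho c₂ N₀ H B hH hHN hB0.le hB2
    have hs : √(H : ℝ) * √(H : ℝ) = H := Real.mul_self_sqrt (Nat.cast_nonneg H)
    have s0 := Real.sqrt_nonneg (H : ℝ)
    have f1 : nrm (Ef o c₁ H) B * nrm (Mg o c₂ N₀ H) B ≤ H * (2 * (a c₁ * mc o c₂)) := by
      calc _ ≤ (√(H : ℝ) * a c₁) * (2 * √(H : ℝ) * mc o c₂) :=
            mul_le_mul ha2 n2 (n0 _) (by positivity)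
        _ = (√(H : ℝ) * √(H : ℝ)) * (2 * (a c₁ * mc o c₂)) := by ring
        _ = _ := by rw [hs]
    have f2 : nrm (Mf o c₁ H) B * nrm (Eg o c₂ N₀ H) B ≤ H * (mc o c₁ * b c₂) := by
      calc _ ≤ (√(H : ℝ) * mc o c₁) * (√(H : ℝ) * b c₂) :=
            mul_le_mul n1 hb2 (n0 _) (by positivity)
        _ = (√(H : ℝ) * √(H : ℝ)) * (mc o c₁ * b c₂) := by ring
        _ = _ := by rw [hs]
    have f3 : nrm (Ef o c₁ H) B * nrm (Eg o c₂ N₀ H) B ≤ H * (a c₁ * b c₂) := by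
      calc _ ≤ (√(H : ℝ) * a c₁) * (√(H : ℝ) * b c₂) :=
            mul_le_mul ha2 hb2 (n0 _) (by positivity)
        _ = (√(H : ℝ) * √(H : ℝ)) * (a c₁ * b c₂) := by ring
        _ = _ := by rw [hs]
    have f4 : ‖(∫ β in (-B)..B, Mf o c₁ H β * Mg o c₂ N₀ H β * ex (-(N * β))) -
        ((∑ n ∈ Ioc (2 * H) (3 * H), mwt o c₁ n * mwt o c₂ ((N - n : ℕ) : ℝ) : ℝ) : ℂ)‖ ≤
        4 * H / P * (mc o c₁ * mc o c₂) := by
      by_cases hz : (c₁.χ = 1 ∨ ∃ δ, o = some (c₁, δ)) ∧ (c₂.χ = 1 ∨ ∃ δ, o = some (c₂, δ))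
      · have g1 : mc o c₁ = 1 := if_pos hz.1
        have g2 : mc o c₂ = 1 := if_pos hz.2
        rw [g1, g2, ← h4B, mul_one, mul_one]
        exact hJ o c₁ c₂ H N₀ N B ho hH hHN hN1 hN2 hB0 hB2
      · have g0 : mc o c₁ = 0 ∨ mc o c₂ = 0 := by
          by_cases h1 : c₁.χ = 1 ∨ ∃ δ, o = some (c₁, δ)
          · right
            exact if_neg fun h2 => hz ⟨h1, h2⟩
          · left
            exact if_neg h1
        have g3 : ∀ c, mc o c = 0 → ∀ n : ℕ, 1 ≤ n → mwt o c n = 0 := by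
          intro c hc n hn
          have := mwt_M_MJB o ho c n hn
          rw [hc] at this
          exact abs_nonpos_iff.1 this
        have g4 : (∑ n ∈ Ioc (2 * H) (3 * H), mwt o c₁ n * mwt o c₂ ((N - n : ℕ) : ℝ) : ℝ) = 0 := by
          refine sum_eq_zero fun n hn => ?_
          rw [mem_Ioc] at hn
          rcases g0 with g | g
          · rw [g3 c₁ g n (by omega), zero_mul]
          · rw [g3 c₂ g (N - n) (by omega), mul_zero]
        have g5 : ∀ β, Mf o c₁ H β * Mg o c₂ N₀ H β = 0 := by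
          intro β
          rcases g0 with g | g
          · have : Mf o c₁ H β = 0 := by
              unfold Mf
              refine sum_eq_zero fun n hn => ?_
              rw [mem_Ioc] at hn
              rw [g3 c₁ g n (by omega)]
              simp
            rw [this, zero_mul]
          · have : Mg o c₂ N₀ H β = 0 := by
              unfold Mg
              refine sum_eq_zero fun n hn => ?_
              rw [mem_Icc] at hn
              rw [g3 c₂ g n hn.1]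
              simp
            rw [this, mul_zero]
        rw [g4]
        simp_rw [g5]
        simp only [zero_mul, intervalIntegral.integral_zero, Complex.ofReal_zero, sub_zero,
          norm_zero]
        positivity
    have e0 : ∀ x y z w v : ℂ, x + (y + (z + w)) - v = (x - v) + (y + (z + w)) := by
      intros
      ring
    rw [e0]
    refine (norm_add_le _ _).trans ?_
    have e4 := norm_add_le (∫ β in (-B)..B, Ef o c₁ H β * Mg o c₂ N₀ H β * ex (-(N * β)))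
      ((∫ β in (-B)..B, Mf o c₁ H β * Eg o c₂ N₀ H β * ex (-(N * β))) +
        (∫ β in (-B)..B, Ef o c₁ H β * Eg o c₂ N₀ H β * ex (-(N * β))))
    have e5 := norm_add_le (∫ β in (-B)..B, Mf o c₁ H β * Eg o c₂ N₀ H β * ex (-(N * β)))
        (∫ β in (-B)..B, Ef o c₁ H β * Eg o c₂ N₀ H β * ex (-(N * β)))
    have e6 : (H : ℝ) * (2 * (a c₁ * mc o c₂) + mc o c₁ * b c₂ + a c₁ * b c₂) =
        H * (2 * (a c₁ * mc o c₂)) + H * (mc o c₁ * b c₂) + H * (a c₁ * b c₂) := by ring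
    rw [e6]
    linarith
  obtain ⟨A, hA⟩ : ∃ A : ℝ, A = ∑ c ∈ PS P, a c := ⟨_, rfl⟩
  obtain ⟨D, hD⟩ : ∃ D : ℝ, D = ∑ c ∈ PS P, b c := ⟨_, rfl⟩
  obtain ⟨M, hM⟩ : ∃ M : ℝ, M = ∑ c ∈ PS P, mc o c := ⟨_, rfl⟩
  have hA0 : 0 ≤ A := by rw [hA]; exact sum_nonneg fun c hc => (hab c hc).1
  have hD0 : 0 ≤ D := by rw [hD]; exact sum_nonneg fun c hc => (hab c hc).2.1
  have hM0 : 0 ≤ M := by rw [hM]; exact sum_nonneg fun c _ => mc_nonneg_M_MJB o c
  have hM2 : M ≤ 2 := by rw [hM]; exact mc_sum_M_MJB o _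
  rw [← hA] at ha
  rw [← hD] at hb
  rw [← sum_sub_distrib]
  have hsum : ‖∑ c₁ ∈ PS P, ((∑ c₂ ∈ PS P, KK c₁ c₂ P N *
      ∫ β in (-B)..B, (Mf o c₁ H β + Ef o c₁ H β) * (Mg o c₂ N₀ H β + Eg o c₂ N₀ H β) *
        ex (-(N * β))) - ∑ c₂ ∈ PS P, KK c₁ c₂ P N *
      ((∑ n ∈ Ioc (2 * H) (3 * H), mwt o c₁ n * mwt o c₂ ((N - n : ℕ) : ℝ) : ℝ) : ℂ))‖ ≤
      ∑ c₁ ∈ PS P, ∑ c₂ ∈ PS P, (C * SS N) *
        (H * (2 * (a c₁ * mc o c₂) + mc o c₁ * b c₂ + a c₁ * b c₂) +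
        4 * H / P * (mc o c₁ * mc o c₂)) := by
    refine (norm_sum_le _ _).trans (sum_le_sum fun c₁ hc₁ => ?_)
    rw [← sum_sub_distrib]
    refine (norm_sum_le _ _).trans (sum_le_sum fun c₂ hc₂ => ?_)
    rw [← mul_sub, norm_mul]
    exact mul_le_mul (hK c₁ c₂ P N hP (by omega) hev) (hpair c₁ hc₁ c₂ hc₂) (norm_nonneg _)
      (mul_nonneg (by linarith) hSS)
  refine hsum.trans ?_
  have hfact : ∑ c₁ ∈ PS P, ∑ c₂ ∈ PS P, (C * SS N) *
        (H * (2 * (a c₁ * mc o c₂) + mc o c₁ * b c₂ + a c₁ * b c₂) +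
        4 * H / P * (mc o c₁ * mc o c₂)) =
      (C * SS N) * (H * (2 * (A * M) + M * D + A * D) + 4 * H / P * (M * M)) := by
    have q1 : A * M = ∑ c₁ ∈ PS P, ∑ c₂ ∈ PS P, a c₁ * mc o c₂ := by rw [hA, hM, sum_mul_sum]
    have q2 : M * D = ∑ c₁ ∈ PS P, ∑ c₂ ∈ PS P, mc o c₁ * b c₂ := by rw [hM, hD, sum_mul_sum]
    have q3 : A * D = ∑ c₁ ∈ PS P, ∑ c₂ ∈ PS P, a c₁ * b c₂ := by rw [hA, hD, sum_mul_sum]
    have q4 : M * M = ∑ c₁ ∈ PS P, ∑ c₂ ∈ PS P, mc o c₁ * mc o c₂ := by rw [hM, sum_mul_sum]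
    rw [q1, q2, q3, q4]
    simp only [← mul_sum, sum_add_distrib]
  rw [hfact]
  have hCS : 0 ≤ C * SS N := mul_nonneg (by linarith) hSS
  have k1 : A * M ≤ 2 * ε := by
    calc A * M ≤ ε * 2 := mul_le_mul ha hM2 hM0 hε0
      _ = 2 * ε := by ring
  have k2 : M * D ≤ 2 * ε := mul_le_mul hM2 hb hD0 (by norm_num)
  have k3 : A * D ≤ ε := by
    calc A * D ≤ ε * 1 := mul_le_mul ha (hb.trans hε1) hD0 hε0
      _ = ε := mul_one _
  have k4 : M * M ≤ 4 := by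
    calc M * M ≤ 2 * 2 := mul_le_mul hM2 hM2 hM0 (by norm_num)
      _ = 4 := by norm_num
  have k5 : 4 * (H : ℝ) / P * (M * M) ≤ 4 * H / P * 4 :=
    mul_le_mul_of_nonneg_left k4 (by positivity)
  have k6 : (H : ℝ) * (2 * (A * M) + M * D + A * D) ≤ H * (7 * ε) :=
    mul_le_mul_of_nonneg_left (by linarith) hH0.le
  calc (C * SS N) * (H * (2 * (A * M) + M * D + A * D) + 4 * H / P * (M * M))
      ≤ (C * SS N) * (H * (7 * ε) + 4 * H / P * 4) :=
        mul_le_mul_of_nonneg_left (by linarith) hCS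
    _ ≤ (C * SS N) * (16 * (H * (ε + 1 / P))) := by
        refine mul_le_mul_of_nonneg_left ?_ hCS
        have : 4 * (H : ℝ) / P * 4 = 16 * (H * (1 / P)) := by ring
        rw [this]
        have : 0 ≤ (H : ℝ) * ε := by positivity
        nlinarith
    _ = 16 * C * SS N * H * (ε + 1 / P) := by ring

end Pool.Agent.Helper47.MV
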