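import Pool.Agent.Helper23.MV.StL

set_option autoImplicit false

namespace Pool.Agent.Helper47.MV

open Finset ArithmeticFunction
open Pool.Agent.Helper23.MV

private noncomputable def jQ (s : ℝ) : ArithmeticFunction ℝ :=
  ArithmeticFunction.prodPrimeFactors (fun p => (p : ℝ) ^ s - 1)

private theorem jQ_sum_M_QTH (s : ℝ) {n : ℕ} (hn : Squarefree n) :
    ∑ d ∈ n.divisors, jQ s d = (n : ℝ) ^ s := by
  have hm : (jQ s).IsMultiplicative := IsMultiplicative.prodPrimeFactors _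
  rw [← hm.prodPrimeFactors_one_add_of_squarefree hn]
  have h1 : ∀ p ∈ n.primeFactors, 1 + jQ s p = (p : ℝ) ^ s := by
    intro p hp
    have hpp := Nat.prime_of_mem_primeFactors hp
    rw [jQ, prodPrimeFactors_apply hpp.ne_zero, hpp.primeFactors, prod_singleton]
    ring
  rw [prod_congr rfl h1, Real.finsetProd_rpow _ _ (fun i _ => Nat.cast_nonneg i),
    ← Nat.cast_prod, Nat.prod_primeFactors_of_squarefree hn]

private theorem jQ_nonneg_M_QTH {s : ℝ} (hs : 0 ≤ s) (k : ℕ) : 0 ≤ jQ s k := by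
  rcases Nat.eq_zero_or_pos k with rfl | hk
  · simp
  · rw [jQ, prodPrimeFactors_apply hk.ne']
    refine prod_nonneg fun p hp => ?_
    have hpp := Nat.prime_of_mem_primeFactors hp
    have : (1 : ℝ) ≤ (p : ℝ) ^ s := Real.one_le_rpow (by exact_mod_cast hpp.one_lt.le) hs
    linarith

private theorem jQ_le_M_QTH {s : ℝ} (hs : 0 ≤ s) {k : ℕ} (hk : Squarefree k) :
    jQ s k ≤ (k : ℝ) ^ s := by
  rw [← jQ_sum_M_QTH s hk]
  exact single_le_sum (f := fun d => jQ s d) (fun i _ => jQ_nonneg_M_QTH hs i)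
    (Nat.mem_divisors_self k hk.ne_zero)

private theorem form_M_QTH (w : ℕ → ℝ) (hw : ∀ d, ¬ Squarefree d → w d = 0) (s : ℝ) (N : ℕ) :
    ∑ d₁ ∈ Icc 1 N, ∑ d₂ ∈ Icc 1 N, w d₁ * w d₂ * (Nat.lcm d₁ d₂ : ℝ) ^ (-s) =
      ∑ k ∈ Icc 1 N, jQ s k *
        (∑ d ∈ (Icc 1 N).filter (fun d => k ∣ d), w d * (d : ℝ) ^ (-s)) ^ 2 := by
  have h1 : ∀ k : ℕ, (∑ d ∈ (Icc 1 N).filter (fun d => k ∣ d), w d * (d : ℝ) ^ (-s)) ^ 2 =
      ∑ d₁ ∈ Icc 1 N, ∑ d₂ ∈ Icc 1 N, if k ∣ d₁ ∧ k ∣ d₂ then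
        (w d₁ * (d₁ : ℝ) ^ (-s)) * (w d₂ * (d₂ : ℝ) ^ (-s)) else 0 := by
    intro k
    rw [sq, sum_filter, sum_mul_sum]
    refine sum_congr rfl fun d₁ _ => sum_congr rfl fun d₂ _ => ?_
    by_cases h1 : k ∣ d₁ <;> by_cases h2 : k ∣ d₂ <;> simp [h1, h2]
  simp_rw [h1, mul_sum]
  symm
  rw [sum_comm]
  refine sum_congr rfl fun d₁ hd₁ => ?_
  rw [sum_comm]
  refine sum_congr rfl fun d₂ hd₂ => ?_
  rw [mem_Icc] at hd₁ hd₂
  by_cases hsq : Squarefree d₁
  · have hg0 : Nat.gcd d₁ d₂ ≠ 0 := Nat.gcd_ne_zero_left (by omega)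
    have hsg : Squarefree (Nat.gcd d₁ d₂) := hsq.squarefree_of_dvd (Nat.gcd_dvd_left _ _)
    have h2 : ∑ k ∈ Icc 1 N, jQ s k * (if k ∣ d₁ ∧ k ∣ d₂ then
        (w d₁ * (d₁ : ℝ) ^ (-s)) * (w d₂ * (d₂ : ℝ) ^ (-s)) else 0)
        = (∑ k ∈ (Nat.gcd d₁ d₂).divisors, jQ s k) *
          ((w d₁ * (d₁ : ℝ) ^ (-s)) * (w d₂ * (d₂ : ℝ) ^ (-s))) := by
      rw [sum_mul]
      have h3 : (Nat.gcd d₁ d₂).divisors = (Icc 1 N).filter (fun k => k ∣ d₁ ∧ k ∣ d₂) := by
        ext k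
        rw [Nat.mem_divisors, mem_filter, mem_Icc, Nat.dvd_gcd_iff]
        constructor
        · rintro ⟨h4, _⟩
          exact ⟨⟨Nat.pos_of_dvd_of_pos h4.1 (by omega),
            (Nat.le_of_dvd (by omega) h4.1).trans hd₁.2⟩, h4⟩
        · rintro ⟨_, h4⟩
          exact ⟨h4, hg0⟩
      rw [h3, sum_filter]
      refine sum_congr rfl fun k _ => ?_
      split_ifs <;> simp
    rw [h2, jQ_sum_M_QTH s hsg]
    have h5 : (Nat.lcm d₁ d₂ : ℝ) ^ (-s)
        = (Nat.gcd d₁ d₂ : ℝ) ^ s * ((d₁ : ℝ) ^ (-s) * (d₂ : ℝ) ^ (-s)) := by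
      have h6 : (Nat.gcd d₁ d₂ : ℝ) * (Nat.lcm d₁ d₂ : ℝ) = d₁ * d₂ := by
        exact_mod_cast Nat.gcd_mul_lcm d₁ d₂
      have hgp : (0 : ℝ) < (Nat.gcd d₁ d₂ : ℝ) := by exact_mod_cast Nat.pos_of_ne_zero hg0
      rw [← Real.mul_rpow (Nat.cast_nonneg _) (Nat.cast_nonneg _), ← h6,
        Real.mul_rpow (Nat.cast_nonneg _) (Nat.cast_nonneg _), ← mul_assoc,
        Real.rpow_neg hgp.le, mul_inv_cancel₀ (Real.rpow_pos_of_pos hgp s).ne', one_mul]
    rw [h5]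
    ring
  · rw [hw d₁ hsq]
    simp

theorem hQth : StMuk → StPhk → StQth := by
  rintro ⟨C₁, hC₁, hmuk⟩ ⟨C₂, hC₂, hphk⟩
  refine ⟨C₁ ^ 2 * C₂, one_le_mul_of_one_le_of_one_le (one_le_pow₀ hC₁) hC₂, ?_⟩
  intro z hz
  have hlz : 0 < Real.log z := Real.log_pos (by linarith)
  obtain ⟨th, hth⟩ : ∃ th : ℝ, th = 1 / Real.log z := ⟨_, rfl⟩
  have hth0 : 0 < th := by rw [hth]; positivity
  obtain ⟨w, hwd⟩ : ∃ w : ℕ → ℝ, ∀ d, w d = (moebius d : ℝ) * Real.log (z / d) := ⟨_, fun _ => rfl⟩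
  have hw : ∀ d, ¬ Squarefree d → w d = 0 := by
    intro d hd
    rw [hwd, moebius_eq_zero_of_not_squarefree hd]
    simp
  have hform := form_M_QTH w hw (1 + th) ⌊z⌋₊
  have e0 : -1 - 1 / Real.log z = -(1 + th) := by rw [hth]; ring
  simp_rw [← hwd, e0]
  rw [hform]
  -- the inner sums
  have key : ∀ k ∈ Icc 1 ⌊z⌋₊, jQ (1 + th) k *
      (∑ d ∈ (Icc 1 ⌊z⌋₊).filter (fun d => k ∣ d), w d * (d : ℝ) ^ (-(1 + th))) ^ 2
      ≤ if Squarefree k then C₁ ^ 2 * ((k : ℝ) / (k.totient : ℝ) ^ 2) else 0 := by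
    intro k hk
    rw [mem_Icc] at hk
    have hk0 : (0 : ℝ) < k := by exact_mod_cast hk.1
    have hk1 : (1 : ℝ) ≤ k := by exact_mod_cast hk.1
    have hkz : (k : ℝ) ≤ z := (Nat.le_floor_iff (by linarith)).1 hk.2
    split_ifs with hsq
    · have hfl : ⌊z / k⌋₊ = ⌊z⌋₊ / k := Nat.floor_div_natCast z k
      have h1 : ∑ d ∈ (Icc 1 ⌊z⌋₊).filter (fun d => k ∣ d), w d * (d : ℝ) ^ (-(1 + th))
          = (moebius k : ℝ) * (k : ℝ) ^ (-(1 + th)) *
            ∑ m ∈ (Icc 1 ⌊z / k⌋₊).filter (fun m => Nat.Coprime m k),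
              (moebius m : ℝ) * (m : ℝ) ^ (-1 - th) * Real.log (z / k / m) := by
        have h2 : ∑ d ∈ (Icc 1 ⌊z⌋₊).filter (fun d => k ∣ d), w d * (d : ℝ) ^ (-(1 + th))
            = ∑ m ∈ Icc 1 ⌊z / k⌋₊, w (k * m) * ((k * m : ℕ) : ℝ) ^ (-(1 + th)) := by
          symm
          refine sum_bij (fun m _ => k * m) ?_ ?_ ?_ ?_
          · intro m hm
            rw [mem_Icc, hfl] at hm
            rw [mem_filter, mem_Icc]
            refine ⟨⟨Nat.mul_pos (by omega) (by omega), ?_⟩, dvd_mul_right _ _⟩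
            have := Nat.mul_le_mul_left k hm.2
            exact this.trans (Nat.mul_div_le _ _)
          · intro a _ b _ hab
            exact Nat.eq_of_mul_eq_mul_left (by omega) hab
          · intro d hd
            rw [mem_filter, mem_Icc] at hd
            obtain ⟨⟨hd1, hd2⟩, m, rfl⟩ := hd
            refine ⟨m, ?_, rfl⟩
            rw [mem_Icc, hfl]
            refine ⟨Nat.pos_of_ne_zero (by rintro rfl; simp at hd1), ?_⟩
            rw [Nat.le_div_iff_mul_le (by omega)]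
            rw [mul_comm]
            exact hd2
          · intro m _
            rfl
        rw [h2, sum_filter, mul_sum]
        refine sum_congr rfl fun m hm => ?_
        rw [mem_Icc] at hm
        have hm0 : (0 : ℝ) < m := by exact_mod_cast hm.1
        split_ifs with hc
        · rw [hwd, isMultiplicative_moebius.map_mul_of_coprime hc.symm]
          push_cast
          rw [Real.mul_rpow hk0.le hm0.le, div_div, show -(1 + th) = -1 - th by ring]
          ring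
        · rw [hwd, moebius_eq_zero_of_not_squarefree]
          · simp
          · intro h3
            exact hc (Nat.coprime_of_squarefree_mul h3).symm
      have hy1 : (1 : ℝ) ≤ z / k := by rw [le_div_iff₀ hk0]; linarith
      have hly : th * Real.log (z / k) ≤ 1 := by
        have h3 : Real.log (z / k) ≤ Real.log z := by
          apply Real.log_le_log (by positivity)
          exact div_le_self (by linarith) hk1
        calc th * Real.log (z / k) ≤ th * Real.log z := mul_le_mul_of_nonneg_left h3 hth0.le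
          _ = 1 := by rw [hth]; field_simp
      have h4 := hmuk k (z / k) th hk.1 hy1 hth0.le hly
      rw [h1, mul_pow, mul_pow]
      have h5 : ((moebius k : ℝ)) ^ 2 ≤ 1 := by
        have : |(moebius k : ℝ)| ≤ 1 := by exact_mod_cast abs_moebius_le_one
        exact (sq_le_one_iff_abs_le_one _).2 this
      have h6 : (∑ m ∈ (Icc 1 ⌊z / k⌋₊).filter (fun m => Nat.Coprime m k),
              (moebius m : ℝ) * (m : ℝ) ^ (-1 - th) * Real.log (z / k / m)) ^ 2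
          ≤ (C₁ * ((k : ℝ) / k.totient)) ^ 2 := by
        rw [← sq_abs]
        exact pow_le_pow_left₀ (abs_nonneg _) h4 2
      have h7 : jQ (1 + th) k * ((k : ℝ) ^ (-(1 + th))) ^ 2 ≤ (k : ℝ)⁻¹ := by
        have h8 := jQ_le_M_QTH (s := 1 + th) (by linarith) hsq
        calc jQ (1 + th) k * ((k : ℝ) ^ (-(1 + th))) ^ 2
            ≤ (k : ℝ) ^ (1 + th) * ((k : ℝ) ^ (-(1 + th))) ^ 2 :=
              mul_le_mul_of_nonneg_right h8 (by positivity)
          _ = (k : ℝ) ^ (-(1 + th)) := by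
              rw [sq, ← Real.rpow_add hk0, ← Real.rpow_add hk0]
              congr 1
              ring
          _ ≤ (k : ℝ) ^ (-1 : ℝ) := Real.rpow_le_rpow_of_exponent_le hk1 (by linarith)
          _ = (k : ℝ)⁻¹ := Real.rpow_neg_one _
      have h9 := jQ_nonneg_M_QTH (s := 1 + th) (by linarith) k
      have hphi : (0 : ℝ) < k.totient := by exact_mod_cast Nat.totient_pos.2 hk.1
      calc jQ (1 + th) k * ((moebius k : ℝ) ^ 2 * ((k : ℝ) ^ (-(1 + th))) ^ 2 *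
            (∑ m ∈ (Icc 1 ⌊z / k⌋₊).filter (fun m => Nat.Coprime m k),
              (moebius m : ℝ) * (m : ℝ) ^ (-1 - th) * Real.log (z / k / m)) ^ 2)
          ≤ jQ (1 + th) k * (1 * ((k : ℝ) ^ (-(1 + th))) ^ 2 *
            (C₁ * ((k : ℝ) / k.totient)) ^ 2) := by
              refine mul_le_mul_of_nonneg_left ?_ h9
              refine mul_le_mul ?_ h6 (sq_nonneg _) (by positivity)
              exact mul_le_mul_of_nonneg_right h5 (by positivity)
        _ = (jQ (1 + th) k * ((k : ℝ) ^ (-(1 + th))) ^ 2) * (C₁ * ((k : ℝ) / k.totient)) ^ 2 := by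
              ring
        _ ≤ (k : ℝ)⁻¹ * (C₁ * ((k : ℝ) / k.totient)) ^ 2 :=
              mul_le_mul_of_nonneg_right h7 (sq_nonneg _)
        _ = C₁ ^ 2 * ((k : ℝ) / (k.totient : ℝ) ^ 2) := by
              field_simp
    · have h1 : ∑ d ∈ (Icc 1 ⌊z⌋₊).filter (fun d => k ∣ d), w d * (d : ℝ) ^ (-(1 + th)) = 0 := by
        refine sum_eq_zero fun d hd => ?_
        rw [mem_filter] at hd
        rw [hw d (fun h2 => hsq (h2.squarefree_of_dvd hd.2)), zero_mul]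
      rw [h1]
      simp
  calc ∑ k ∈ Icc 1 ⌊z⌋₊, jQ (1 + th) k *
      (∑ d ∈ (Icc 1 ⌊z⌋₊).filter (fun d => k ∣ d), w d * (d : ℝ) ^ (-(1 + th))) ^ 2
      ≤ ∑ k ∈ Icc 1 ⌊z⌋₊, if Squarefree k then C₁ ^ 2 * ((k : ℝ) / (k.totient : ℝ) ^ 2) else 0 :=
        sum_le_sum key
    _ = C₁ ^ 2 * ∑ k ∈ (Icc 1 ⌊z⌋₊).filter Squarefree, (k : ℝ) / (k.totient : ℝ) ^ 2 := by
        rw [← sum_filter, mul_sum]
    _ ≤ C₁ ^ 2 * (C₂ * Real.log z) :=
        mul_le_mul_of_nonneg_left (hphk z (by linarith)) (by positivity)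
    _ = C₁ ^ 2 * C₂ * Real.log z := by ring

end Pool.Agent.Helper47.MV
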